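import Mathlib
import Pool.Agent.Lib.P8e4414.Charge
import Pool.Agent.Lib.P8e4414.Limit

/-!
# The annealed free energy of the charged polymer exists as a limit (MP_8e4414_pr, Q1)

For every `d ≥ 2`, every admissible charge law and all `δ ≥ 0`, `β > 0` the limit of
`(1/n) log Z_n` exists.

Outline.
* Factorisation: averaging over the charges gives `∏_x g (ℓ_n(x))` with
  `g(ℓ) = E^δ[exp(-β Ω_ℓ²)]`, and `g(ℓ+1) ≥ c g(ℓ)` for some `c > 0`, because the tilted law
  charges both half-lines (adding a charge of the right sign to `a` keeps `(a+ω)² ≤ a² + K²`).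
* Joining: given an `n`-step walk and an `m`-step walk, there are `(S+1)²` connecting paths of
  the same length `4S` with different displacements; the numbers of visits of the shifted second
  walk to the range of the first add up to at most `n m`, so for `S = ⌈(n+m)^(2/3)⌉` one shift has
  at most `S` of them. The weight of the joined walk is then at least `c^(5S)` times the product
  of the weights. As `n`, `m`, `S` are fixed, the two walks can be read off from the joined one.
* Hence `log` of the total weight is superadditive up to losses `O((n+m)^(2/3))` of value and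
  length, which implies convergence of `(1/n) log Z_n`.
-/

set_option autoImplicit false

open MeasureTheory Filter Topology Finset

namespace Pool.Agent.Results.MP_8e4414_pr.LimitExists

open Pool.Agent.Lib.P8e4414

/-- `S_{i+1}`: the position after the first `i + 1` steps of the walk on `ℤ^d` started at `0`
with steps `s`; the step `(k, true)` is `e_k` and the step `(k, false)` is `-e_k`. -/
def pos {d n : ℕ} (s : Fin n → Fin d × Bool) (i : Fin n) : Fin d → ℤ :=
  ∑ j : Fin n, if j ≤ i then Pi.single (s j).1 (if (s j).2 then 1 else -1) else 0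

/-- The energy `∑_x (∑_{i=1}^n ω_i 1{S_i = x})²` of the charges `ω` along the walk. -/
noncomputable def energy {d n : ℕ} (s : Fin n → Fin d × Bool) (ω : Fin n → ℝ) : ℝ :=
  ∑' x : Fin d → ℤ, (∑ i : Fin n, if pos s i = x then ω i else 0) ^ 2

/-- The annealed partition function `Z_n^{δ,β}`: average over the `(2d)^n` walks of `n` steps of
the expectation of `exp(-β energy)` over i.i.d. charges with law `e^{δ x} ν(dx) / M(δ)`. -/
noncomputable def Z (d : ℕ) (ν : Measure ℝ) (δ β : ℝ) (n : ℕ) : ℝ :=
  (∑ s : Fin n → Fin d × Bool, ∫ ω : Fin n → ℝ, Real.exp (-β * energy s ω)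
    ∂(Measure.pi fun _ => ν.tilted fun x => δ * x)) / (2 * d) ^ n

lemma pos_zero {d n : ℕ} (s : Fin (n + 1) → Fin d × Bool) : pos s 0 = stepVec (s 0) := by
  unfold pos stepVec
  rw [Fin.sum_univ_succ]
  simp

lemma pos_succ {d n : ℕ} (s : Fin (n + 1) → Fin d × Bool) (i : Fin n) :
    pos s i.succ = stepVec (s 0) + pos (fun j => s j.succ) i := by
  unfold pos stepVec
  rw [Fin.sum_univ_succ]
  simp

lemma sites_ofFn {d n : ℕ} (s : Fin n → Fin d × Bool) (a : Fin d → ℤ) :
    sites a (List.ofFn s) = List.ofFn (fun i => a + pos s i) := by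
  induction n generalizing a with
  | zero => simp [sites]
  | succ n ih =>
    rw [List.ofFn_succ, List.ofFn_succ, sites, ih]
    simp only [pos_zero, pos_succ, add_assoc]

lemma count_ofFn {X : Type*} [DecidableEq X] {n : ℕ} (p : Fin n → X) (x : X) :
    (List.ofFn p).count x = (Finset.univ.filter fun i => p i = x).card := by
  induction n with
  | zero => simp
  | succ n ih =>
    rw [List.ofFn_succ, List.count_cons, ih, Fin.card_filter_univ_succ]
    by_cases h : p 0 = x
    · simp [h]
    · simp [h]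

lemma energy_eq {d n : ℕ} (s : Fin n → Fin d × Bool) (ω : Fin n → ℝ) :
    energy s ω = ∑ x ∈ Finset.univ.image (pos s),
      ((fun _ => (0:ℝ)) x + ∑ i : Fin n, if pos s i = x then ω i else 0) ^ 2 := by
  unfold energy
  rw [tsum_eq_sum (s := Finset.univ.image (pos s))]
  · simp
  · intro x hx
    have : ∑ i : Fin n, (if pos s i = x then ω i else 0) = 0 := by
      apply Finset.sum_eq_zero
      intro i _
      rw [if_neg]
      rintro rfl
      exact hx (Finset.mem_image_of_mem _ (Finset.mem_univ i))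
    rw [this]
    norm_num

lemma integral_eq_W {d n : ℕ} {μ : Measure ℝ} [IsProbabilityMeasure μ] {β : ℝ} (hβ : 0 ≤ β)
    (s : Fin n → Fin d × Bool) :
    ∫ ω : Fin n → ℝ, Real.exp (-β * energy s ω) ∂(Measure.pi fun _ => μ) =
      W (fun ℓ => G μ β ℓ 0) (sites 0 (List.ofFn s)) := by
  simp only [energy_eq]
  rw [integral_pi_eq_prod hβ (Finset.univ.image (pos s)) n (pos s)
    (fun i => Finset.mem_image_of_mem _ (Finset.mem_univ i)) (fun _ => 0)]
  rw [sites_ofFn]
  simp only [zero_add]
  unfold W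
  have h : (List.ofFn fun i => pos s i).toFinset = Finset.univ.image (pos s) := by
    ext x
    simp [List.mem_ofFn]
  rw [h]
  apply Finset.prod_congr rfl
  intro x _
  rw [count_ofFn]

lemma sum_eq_Y (d n : ℕ) (g : ℕ → ℝ) :
    ∑ s : Fin n → Fin d × Bool, W g (sites 0 (List.ofFn s)) = Y d g n := by
  unfold Y
  apply Fintype.sum_equiv (Equiv.vectorEquivFin (Fin d × Bool) n).symm
  intro s
  congr 2
  exact (List.Vector.toList_ofFn s).symm

lemma integrable_id_of_exp {ν : Measure ℝ} (hM : ∀ δ : ℝ, Integrable (fun x => Real.exp (δ * x)) ν) :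
    Integrable (fun x : ℝ => x) ν := by
  apply Integrable.mono' ((hM 1).add (hM (-1))) measurable_id.aestronglyMeasurable
  refine ae_of_all _ fun x => ?_
  simp only [Pi.add_apply, one_mul, Real.norm_eq_abs, id_eq]
  rcases le_total 0 x with h | h
  · rw [abs_of_nonneg h]
    have h1 := Real.add_one_le_exp x
    have h2 := Real.exp_pos (-1 * x)
    linarith
  · rw [abs_of_nonpos h]
    have h1 := Real.add_one_le_exp (-1 * x)
    have h2 := Real.exp_pos x
    linarith

lemma measure_Iic_ne_zero {ν : Measure ℝ} [IsProbabilityMeasure ν]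
    (hi : Integrable (fun x : ℝ => x) ν) (h1 : ∫ x, x ∂ν = 0) : ν (Set.Iic 0) ≠ 0 := by
  intro h
  have hpos : ∀ᵐ x ∂ν, 0 < x := by
    rw [ae_iff]
    simpa [Set.Iic, not_lt] using h
  have h2 : (0 : ℝ → ℝ) ≤ᵐ[ν] fun x => x := hpos.mono fun x hx => hx.le
  have h3 := (integral_eq_zero_iff_of_nonneg_ae h2 hi).mp h1
  have h4 : ∀ᵐ x ∂ν, False := by
    filter_upwards [hpos, h3] with x hx hx'
    simp at hx'
    exact hx.ne' hx'
  rw [ae_iff] at h4
  simp at h4

lemma measure_Ici_ne_zero {ν : Measure ℝ} [IsProbabilityMeasure ν]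
    (hi : Integrable (fun x : ℝ => x) ν) (h1 : ∫ x, x ∂ν = 0) : ν (Set.Ici 0) ≠ 0 := by
  intro h
  have hneg : ∀ᵐ x ∂ν, x < 0 := by
    rw [ae_iff]
    simpa [Set.Ici, not_lt] using h
  have h2 : (0 : ℝ → ℝ) ≤ᵐ[ν] fun x => -x := hneg.mono fun x hx => by simpa using hx.le
  have h3 := (integral_eq_zero_iff_of_nonneg_ae h2 hi.neg).mp (by rw [integral_neg, h1, neg_zero])
  have h4 : ∀ᵐ x ∂ν, False := by
    filter_upwards [hneg, h3] with x hx hx'
    simp at hx'
    exact hx.ne hx'
  rw [ae_iff] at h4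
  simp at h4

/-- For every dimension `d ≥ 2`, every admissible charge law `ν` (all exponential moments finite,
mean `0`, second moment `1`) and all `δ ≥ 0`, `β > 0`, the sequence `(1/n) log Z_n^{δ,β}`
converges. -/
theorem result (d : ℕ) (hd : 2 ≤ d) (ν : Measure ℝ) [IsProbabilityMeasure ν]
    (hM : ∀ t : ℝ, Integrable (fun x => Real.exp (t * x)) ν)
    (hmean : ∫ x, x ∂ν = 0) (hvar : ∫ x, x ^ 2 ∂ν = 1)
    (δ β : ℝ) (hδ : 0 ≤ δ) (hβ : 0 < β) :
    ∃ F : ℝ, Tendsto (fun n : ℕ => Real.log (Z d ν δ β n) / n) atTop (𝓝 F) := by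
  set μ : Measure ℝ := ν.tilted fun x => δ * x with hμ
  have : IsProbabilityMeasure μ := isProbabilityMeasure_tilted (hM δ)
  have hac : ν ≪ μ := absolutelyContinuous_tilted (hM δ)
  have hi := integrable_id_of_exp hM
  have hneg : μ (Set.Iic 0) ≠ 0 := fun h => measure_Iic_ne_zero hi hmean (hac h)
  have hpos : μ (Set.Ici 0) ≠ 0 := fun h => measure_Ici_ne_zero hi hmean (hac h)
  obtain ⟨c, hc, hc1, hstep⟩ := exists_step_const hβ hneg hpos
  set g : ℕ → ℝ := fun ℓ => G μ β ℓ 0 with hg
  have gstep : ∀ n, c * g n ≤ g (n + 1) := fun n => G_succ_ge hβ.le hstep n 0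
  have g0 : g 0 = 1 := by simp [hg, G]
  have g1 : ∀ n, g n ≤ 1 := fun n => G_le_one hβ.le n 0
  have gpos : ∀ n, 0 < g n := by
    intro n
    induction n with
    | zero => rw [g0]; norm_num
    | succ n ih => exact (mul_pos hc ih).trans_le (gstep n)
  obtain ⟨ℓ, hℓ⟩ := tendsto_log_Y (d := d) gpos g1 g0 hc hc1 gstep hd
  have hZ : ∀ n, Z d ν δ β n = Y d g n / (2 * d) ^ n := by
    intro n
    unfold Z
    rw [← hμ, ← sum_eq_Y]
    congr 1
    exact Finset.sum_congr rfl fun s _ => integral_eq_W hβ.le s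
  refine ⟨ℓ - Real.log (2 * d), ?_⟩
  have h1 : Tendsto (fun n : ℕ => Real.log (Y d g n) / n - Real.log (2 * d)) atTop
      (𝓝 (ℓ - Real.log (2 * d))) := hℓ.sub_const _
  apply h1.congr'
  filter_upwards [eventually_ge_atTop 1] with n hn
  have hn' : (n:ℝ) ≠ 0 := by positivity
  have hd' : (0:ℝ) < 2 * d := by
    have : (0:ℝ) < d := by exact_mod_cast (by omega : 0 < d)
    linarith
  rw [hZ, Real.log_div (Y_pos gpos g0 hc hc1 gstep hd n).ne' (by positivity), Real.log_pow]
  field_simp

end Pool.Agent.Results.MP_8e4414_pr.LimitExists
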